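import Pool.Agent.H4.Reg.Sub

set_option autoImplicit false

/-!
Every countable subset of a regular ring is contained in a countable regular subring.
-/

namespace Pool.Agent.H4.Reg

open Matrix

section

variable (R : Type) [Ring R] [IsNoetherianRing R]

open Classical in
/-- A solution of the system. -/
noncomputable def sol (p q : ℕ) (M : Matrix (Fin p) (Fin q) R) (v : Fin q → R) : Fin p → R :=
  if h : ∃ x, x ᵥ* M = v then h.choose else 0

open Classical in
/-- A generalized inverse. -/
noncomputable def spl (p q : ℕ) (M : Matrix (Fin p) (Fin q) R) : Matrix (Fin q) (Fin p) R :=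
  if h : ∃ Y : Matrix (Fin q) (Fin p) R, M * Y * M = M then h.choose else 0

/-- The operations. -/
noncomputable def op (p q : ℕ) (a : Fin 2 → R) (M : Matrix (Fin p) (Fin q) R)
    (v : Fin q → R) : Set R :=
  (({0, 1, a 0 + a 1, a 0 * a 1, - a 0} : Set R) ∪ Set.range (sol R p q M v)) ∪
    (Set.range (fun ij : _ × _ => km R p q M ij.1 ij.2) ∪
      Set.range (fun ij : _ × _ => spl R p q M ij.1 ij.2))

theorem op_countable (p q : ℕ) (a : Fin 2 → R) (M : Matrix (Fin p) (Fin q) R)
    (v : Fin q → R) : (op R p q a M v).Countable := by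
  unfold op
  refine (Set.Countable.union (Set.Countable.union ?_ (Set.countable_range _))
    (Set.Countable.union (Set.countable_range _) (Set.countable_range _)))
  exact Set.Finite.countable (by simp)

/-- One step of the closure. -/
noncomputable def nx (C : Set R) : Set R :=
  C ∪ ⋃ (x : Σ pq : ℕ × ℕ, (Fin 2 → C) × (Fin pq.1 → Fin pq.2 → C) × (Fin pq.2 → C)),
    op R x.1.1 x.1.2 (fun i => x.2.1 i) (Matrix.of fun i j => (x.2.2.1 i j : R))
      (fun j => x.2.2.2 j)

theorem nx_countable (C : Set R) (hC : C.Countable) : (nx R C).Countable := by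
  have := hC.to_subtype
  exact hC.union (Set.countable_iUnion fun x => op_countable R _ _ _ _ _)

/-- The closure. -/
noncomputable def cl (C : Set R) : Set R := ⋃ n : ℕ, (nx R)^[n] C

theorem cl_countable (C : Set R) (hC : C.Countable) : (cl R C).Countable := by
  refine Set.countable_iUnion fun n => ?_
  induction n with
  | zero => exact hC
  | succ n ih => rw [Function.iterate_succ_apply']; exact nx_countable R _ ih

theorem iter_mono (C : Set R) : Monotone fun n : ℕ => (nx R)^[n] C := by
  refine monotone_nat_of_le_succ fun n => ?_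
  rw [Function.iterate_succ_apply']
  exact Set.subset_union_left

theorem cl_op (C : Set R) (p q : ℕ) (a : Fin 2 → R) (M : Matrix (Fin p) (Fin q) R)
    (v : Fin q → R) (ha : ∀ i, a i ∈ cl R C) (hM : ∀ i j, M i j ∈ cl R C)
    (hv : ∀ j, v j ∈ cl R C) : op R p q a M v ⊆ cl R C := by
  have h1 : ∀ x, x ∈ cl R C → ∃ n, x ∈ (nx R)^[n] C := fun x hx => Set.mem_iUnion.1 hx
  choose na hna using fun i => h1 _ (ha i)
  choose nM hnM using fun ij : Fin p × Fin q => h1 _ (hM ij.1 ij.2)
  choose nv hnv using fun i => h1 _ (hv i)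
  let n : ℕ := (∑ i, na i) + (∑ ij, nM ij) + ∑ j, nv j
  have h2 : ∀ i, a i ∈ (nx R)^[n] C := fun i => by
    refine iter_mono R C ?_ (hna i)
    have : na i ≤ ∑ i, na i := Finset.single_le_sum (fun _ _ => Nat.zero_le _) (Finset.mem_univ i)
    omega
  have h3 : ∀ i j, M i j ∈ (nx R)^[n] C := fun i j => by
    refine iter_mono R C ?_ (hnM (i, j))
    have : nM (i, j) ≤ ∑ ij, nM ij :=
      Finset.single_le_sum (fun _ _ => Nat.zero_le _) (Finset.mem_univ (i, j))
    omega
  have h4 : ∀ j, v j ∈ (nx R)^[n] C := fun i => by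
    refine iter_mono R C ?_ (hnv i)
    have : nv i ≤ ∑ i, nv i := Finset.single_le_sum (fun _ _ => Nat.zero_le _) (Finset.mem_univ i)
    omega
  intro x hx
  refine Set.mem_iUnion.2 ⟨n + 1, ?_⟩
  rw [Function.iterate_succ_apply']
  refine Or.inr (Set.mem_iUnion.2 ⟨⟨(p, q), (fun i => ⟨a i, h2 i⟩),
    (fun i j => ⟨M i j, h3 i j⟩), fun j => ⟨v j, h4 j⟩⟩, ?_⟩)
  exact hx

theorem zero_mem_cl (C : Set R) : (0 : R) ∈ cl R (insert 0 C) :=
  Set.mem_iUnion.2 ⟨0, Set.mem_insert _ _⟩

theorem cl_ring (C : Set R) {a b : R} (ha : a ∈ cl R C) (hb : b ∈ cl R C) {x : R}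
    (hx : x ∈ ({0, 1, a + b, a * b, - a} : Set R)) : x ∈ cl R C := by
  refine cl_op R C 0 0 ![a, b] 0 0 ?_ (fun i => i.elim0) (fun i => i.elim0) (Or.inl (Or.inl ?_))
  · intro i
    fin_cases i
    · exact ha
    · exact hb
  · simpa using hx

/-- The closure as a subring. -/
noncomputable def clR (C : Set R) : Subring R where
  carrier := cl R (insert 0 C)
  zero_mem' := zero_mem_cl R C
  one_mem' := cl_ring R _ (zero_mem_cl R C) (zero_mem_cl R C) (by simp)
  add_mem' := fun ha hb => cl_ring R _ ha hb (by simp)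
  mul_mem' := fun ha hb => cl_ring R _ ha hb (by simp)
  neg_mem' := fun ha => cl_ring R _ ha (zero_mem_cl R C) (by simp)

theorem clR_closed (C : Set R) : Closed R (clR R C) := by
  constructor
  · intro p q M v h
    have h1 := cl_op R (insert 0 C) p q 0 (M.map (clR R C).subtype) (fun j => (v j : R))
      (fun _ => zero_mem_cl R C) (fun i j => (M i j).2) (fun j => (v j).2)
    have h2 : sol R p q (M.map (clR R C).subtype) (fun j => (v j : R)) ᵥ*
        M.map (clR R C).subtype = fun j => (v j : R) := by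
      unfold sol
      rw [dif_pos h]
      exact h.choose_spec
    refine ⟨fun i => ⟨sol R p q (M.map (clR R C).subtype) (fun j => (v j : R)) i,
      h1 (Or.inl (Or.inr ⟨i, rfl⟩))⟩, ?_⟩
    have h3 := vecMul_map M (fun i => (⟨sol R p q (M.map (clR R C).subtype)
      (fun j => (v j : R)) i, h1 (Or.inl (Or.inr ⟨i, rfl⟩))⟩ : clR R C))
    ext j
    exact (congrFun h3 j).symm.trans (congrFun h2 j)
  · intro p q M i j
    have h1 := cl_op R (insert 0 C) p q 0 (M.map (clR R C).subtype) 0
      (fun _ => zero_mem_cl R C) (fun i j => (M i j).2) (fun j => zero_mem_cl R C)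
    exact h1 (Or.inr (Or.inl ⟨(i, j), rfl⟩))
  · intro p q M h
    have h1 := cl_op R (insert 0 C) p q 0 (M.map (clR R C).subtype) 0
      (fun _ => zero_mem_cl R C) (fun i j => (M i j).2) (fun j => zero_mem_cl R C)
    have h2 : M.map (clR R C).subtype * spl R p q (M.map (clR R C).subtype) *
        M.map (clR R C).subtype = M.map (clR R C).subtype := by
      unfold spl
      rw [dif_pos h]
      exact h.choose_spec
    let Y : Matrix (Fin q) (Fin p) (clR R C) := Matrix.of fun i j =>
      ⟨spl R p q (M.map (clR R C).subtype) i j, h1 (Or.inr (Or.inr ⟨(i, j), rfl⟩))⟩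
    refine ⟨Y, ?_⟩
    have h3 : Y.map (clR R C).subtype = spl R p q (M.map (clR R C).subtype) := rfl
    rw [← h3, ← Matrix.map_mul, ← Matrix.map_mul] at h2
    exact Matrix.map_injective (Subring.subtype_injective _) h2

/-- **Countable regular subrings.** -/
theorem exists_countable_regular (hR : Regular R) (C : Set R) (hC : C.Countable) :
    ∃ S : Subring R, C ⊆ S ∧ Countable S ∧ Regular S := by
  refine ⟨clR R C, ?_, ?_, regular_sub hR (clR_closed R C)⟩
  · intro x hx
    exact Set.mem_iUnion.2 ⟨0, Set.mem_insert_of_mem _ hx⟩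
  · exact (cl_countable R _ (hC.insert 0)).to_subtype

end

end Pool.Agent.H4.Reg
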