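import Mathlib

set_option autoImplicit false

/-!
Regular rings.
-/

namespace Pool.Agent.H4.Reg

/-- The module `M` has a resolution of length `d` by finitely generated projective modules. -/
def FinRes (R : Type) [Ring R] : ℕ → (M : Type) → [AddCommGroup M] → [Module R M] → Prop
  | 0, M, _, _ => Module.Finite R M ∧ Module.Projective R M
  | d + 1, M, _, _ => ∃ (P : Type) (_ : AddCommGroup P) (_ : Module R P) (f : P →ₗ[R] M),
      Module.Finite R P ∧ Module.Projective R P ∧ Function.Surjective f ∧
      FinRes R d (LinearMap.ker f)

/-- The ring is (left) regular: it is (left) Noetherian and every finitely generated (left) module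
has a finite resolution by finitely generated projective modules. -/
structure Regular (R : Type) [Ring R] : Prop where
  noeth : IsNoetherianRing R
  res : ∀ (M : Type) [AddCommGroup M] [Module R M], Module.Finite R M → ∃ d, FinRes R d M

end Pool.Agent.H4.Reg
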