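import Pool.Agent.H4.Reg.Defs

set_option autoImplicit false

/-!
Regular rings and matrices.
-/

namespace Pool.Agent.H4.Reg

open CategoryTheory Matrix

/-- The range of the map `x ↦ x N`. -/
abbrev rg {R : Type} [Ring R] {p q : ℕ} (N : Matrix (Fin p) (Fin q) R) :
    Submodule R (Fin q → R) := LinearMap.range N.vecMulLinear

/-- The kernel of the map `x ↦ x N`. -/
abbrev kr {R : Type} [Ring R] {p q : ℕ} (N : Matrix (Fin p) (Fin q) R) :
    Submodule R (Fin p → R) := LinearMap.ker N.vecMulLinear

theorem exists_rg {R : Type} [Ring R] {p : ℕ} (K : Submodule R (Fin p → R)) (hK : K.FG) :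
    ∃ (r : ℕ) (N : Matrix (Fin r) (Fin p) R), rg N = K := by
  obtain ⟨r, g, hg⟩ := Submodule.fg_iff_exists_fin_generating_family.1 hK
  refine ⟨r, Matrix.of g, ?_⟩
  rw [← hg]
  ext x
  rw [LinearMap.mem_range, Submodule.mem_span_range_iff_exists_fun]
  constructor
  · rintro ⟨y, rfl⟩
    refine ⟨y, ?_⟩
    rw [Matrix.vecMulLinear_apply]
    ext j
    simp [Matrix.vecMul, dotProduct]
  · rintro ⟨y, rfl⟩
    refine ⟨y, ?_⟩
    rw [Matrix.vecMulLinear_apply]
    ext j
    simp [Matrix.vecMul, dotProduct]

section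

variable (R : Type) [Ring R] [IsNoetherianRing R]

/-- The number of generators of the kernel. -/
noncomputable def kn (p q : ℕ) (M : Matrix (Fin p) (Fin q) R) : ℕ :=
  (exists_rg (kr M) (IsNoetherian.noetherian _)).choose

/-- A matrix whose rows generate the kernel. -/
noncomputable def km (p q : ℕ) (M : Matrix (Fin p) (Fin q) R) :
    Matrix (Fin (kn R p q M)) (Fin p) R :=
  (exists_rg (kr M) (IsNoetherian.noetherian _)).choose_spec.choose

theorem rg_km (p q : ℕ) (M : Matrix (Fin p) (Fin q) R) : rg (km R p q M) = kr M :=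
  (exists_rg (kr M) (IsNoetherian.noetherian _)).choose_spec.choose_spec

/-- The iterated kernel matrices end in a matrix `N` with `N = N Y N`. -/
def Ch : ℕ → ∀ p q : ℕ, Matrix (Fin p) (Fin q) R → Prop
  | 0, p, q, M => ∃ Y : Matrix (Fin q) (Fin p) R, M * Y * M = M
  | d + 1, p, q, M => Ch d (kn R p q M) p (km R p q M)

end

theorem pd_of_finRes (R : Type) [Ring R] : ∀ (d : ℕ) (M : Type) [AddCommGroup M] [Module R M],
    FinRes R d M → HasProjectiveDimensionLT (ModuleCat.of R M) (d + 1) := by
  intro d
  induction d with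
  | zero =>
    intro M _ _ h
    obtain ⟨_, h⟩ := h
    have := (IsProjective.iff_projective (R := R) M).1 h
    infer_instance
  | succ d ih =>
    intro M _ _ h
    obtain ⟨P, _, _, f, h1, h2, h3, h4⟩ := h
    have h5 := ih _ h4
    have h6 : Projective (ModuleCat.of R P) := (IsProjective.iff_projective (R := R) P).1 h2
    let S : ShortComplex (ModuleCat.{0} R) :=
      ShortComplex.mk (ModuleCat.ofHom (LinearMap.ker f).subtype) (ModuleCat.ofHom f) (by
        ext x
        exact x.2)
    have hS : S.ShortExact := by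
      apply ModuleCat.shortComplex_shortExact
      · exact LinearMap.exact_subtype_ker_map f
      · exact Subtype.val_injective
      · exact h3
    exact (hS.hasProjectiveDimensionLT_X₃_iff d h6).2 h5

theorem se_ker {R : Type} [Ring R] {A B : Type} [AddCommGroup A] [Module R A] [AddCommGroup B]
    [Module R B] (f : A →ₗ[R] B) (hf : Function.Surjective f) :
    (ShortComplex.mk (ModuleCat.ofHom (LinearMap.ker f).subtype) (ModuleCat.ofHom f) (by
        ext x
        exact x.2) : ShortComplex (ModuleCat.{0} R)).ShortExact := by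
  apply ModuleCat.shortComplex_shortExact
  · exact LinearMap.exact_subtype_ker_map f
  · exact Subtype.val_injective
  · exact hf

section

variable (R : Type) [Ring R] [IsNoetherianRing R]

omit [IsNoetherianRing R] in
theorem split_mat {p r : ℕ} (N : Matrix (Fin r) (Fin p) R) (π : (Fin p → R) →ₗ[R] (Fin p → R))
    (h1 : ∀ x, π x ∈ rg N) (h2 : ∀ x ∈ rg N, π x = x) :
    ∃ Y : Matrix (Fin p) (Fin r) R, N * Y * N = N := by
  choose y hy using fun i : Fin p => h1 (Pi.single i 1)
  have h3 : π = (Matrix.of y * N).vecMulLinear := by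
    refine (Pi.basisFun R (Fin p)).ext fun i => ?_
    rw [Pi.basisFun_apply, ← hy i, Matrix.vecMulLinear_apply, Matrix.vecMulLinear_apply,
      Matrix.single_one_vecMul]
    ext j
    simp [Matrix.vecMul, dotProduct, Matrix.mul_apply]
  refine ⟨Matrix.of y, ?_⟩
  ext i j
  have h4 : N.row i ∈ rg N := ⟨Pi.single i 1, by
    rw [Matrix.vecMulLinear_apply, Matrix.single_one_vecMul]⟩
  have h5 := h2 _ h4
  rw [h3, Matrix.vecMulLinear_apply] at h5
  have h6 := congrFun h5 j
  rw [Matrix.mul_assoc]
  simpa [Matrix.mul_apply, Matrix.vecMul, dotProduct, Matrix.row] using h6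

theorem ch_of_pd : ∀ (d p q : ℕ) (M : Matrix (Fin p) (Fin q) R),
    HasProjectiveDimensionLT (ModuleCat.of R (rg M)) (d + 1) → ∃ d', Ch R d' p q M := by
  intro d
  induction d with
  | zero =>
    intro p q M h
    have h1 : Module.Projective R (rg M) :=
      (IsProjective.iff_projective (R := R) (rg M)).2 inferInstance
    have hs : Function.Surjective M.vecMulLinear.rangeRestrict :=
      LinearMap.surjective_rangeRestrict _
    obtain ⟨s, hs⟩ := Module.projective_lifting_property M.vecMulLinear.rangeRestrict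
      LinearMap.id hs
    refine ⟨1, ?_⟩
    refine split_mat R (km R p q M) (LinearMap.id - s.comp M.vecMulLinear.rangeRestrict) ?_ ?_
    · intro x
      rw [rg_km, LinearMap.mem_ker, LinearMap.sub_apply, map_sub, sub_eq_zero]
      have h2 := congrArg Subtype.val (LinearMap.congr_fun hs (M.vecMulLinear.rangeRestrict x))
      exact h2.symm
    · intro x hx
      rw [rg_km, LinearMap.mem_ker] at hx
      have h2 : M.vecMulLinear.rangeRestrict x = 0 := Subtype.ext hx
      rw [LinearMap.sub_apply, LinearMap.comp_apply, h2, map_zero, sub_zero]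
      rfl
  | succ d ih =>
    intro p q M h
    have hs : Function.Surjective M.vecMulLinear.rangeRestrict :=
      LinearMap.surjective_rangeRestrict _
    have h1 := se_ker M.vecMulLinear.rangeRestrict hs
    have h3 : Projective (ModuleCat.of R (Fin p → R)) :=
      (IsProjective.iff_projective (R := R) (Fin p → R)).1 inferInstance
    have h4 : HasProjectiveDimensionLT (ModuleCat.of R (Fin p → R)) (d + 1) :=
      hasProjectiveDimensionLT_of_ge _ 1 (d + 1) (by omega)
    have h2 : HasProjectiveDimensionLT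
        (ModuleCat.of R (LinearMap.ker M.vecMulLinear.rangeRestrict)) (d + 1) :=
      h1.hasProjectiveDimensionLT_X₁ (d + 1) h4 h
    have h5 : LinearMap.ker M.vecMulLinear.rangeRestrict = rg (km R p q M) := by
      rw [rg_km, LinearMap.ker_rangeRestrict]
    have h6 := hasProjectiveDimensionLT_of_iso (LinearEquiv.ofEq _ _ h5).toModuleIso (d + 1)
    obtain ⟨d', hd'⟩ := ih _ _ (km R p q M) h6
    exact ⟨d' + 1, hd'⟩

theorem exists_ch (hR : Regular R) (p q : ℕ) (M : Matrix (Fin p) (Fin q) R) :
    ∃ d, Ch R d p q M := by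
  obtain ⟨d, hd⟩ := hR.res ((Fin q → R) ⧸ rg M) inferInstance
  have h1 := pd_of_finRes R d _ hd
  have h2 := se_ker (rg M).mkQ (Submodule.mkQ_surjective _)
  have h3 : Projective (ModuleCat.of R (Fin q → R)) :=
    (IsProjective.iff_projective (R := R) (Fin q → R)).1 inferInstance
  have h4 : HasProjectiveDimensionLT (ModuleCat.of R (Fin q → R)) (d + 1) :=
    hasProjectiveDimensionLT_of_ge _ 1 (d + 1) (by omega)
  have h5 : HasProjectiveDimensionLT (ModuleCat.of R ((Fin q → R) ⧸ rg M)) (d + 2) :=
    hasProjectiveDimensionLT_of_ge _ (d + 1) (d + 2) (by omega)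
  have h6 : HasProjectiveDimensionLT (ModuleCat.of R (LinearMap.ker (rg M).mkQ)) (d + 1) :=
    h2.hasProjectiveDimensionLT_X₁ (d + 1) h4 h5
  have h7 : LinearMap.ker (rg M).mkQ = rg M := Submodule.ker_mkQ _
  exact ch_of_pd R d p q M
    (hasProjectiveDimensionLT_of_iso (LinearEquiv.ofEq _ _ h7).toModuleIso (d + 1))

end

end Pool.Agent.H4.Reg
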