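import Pool.Agent.H4.Reg.Mat

set_option autoImplicit false

/-!
Subrings of regular rings which are closed under the solution of equations are regular.
-/

namespace Pool.Agent.H4.Reg

open CategoryTheory Matrix

theorem finRes_equiv (R : Type) [Ring R] : ∀ (d : ℕ) (M M' : Type) [AddCommGroup M] [Module R M]
    [AddCommGroup M'] [Module R M'], (M ≃ₗ[R] M') → FinRes R d M → FinRes R d M' := by
  intro d
  induction d with
  | zero =>
    intro M M' _ _ _ _ e h
    obtain ⟨h1, h2⟩ := h
    exact ⟨Module.Finite.equiv e, Module.Projective.of_equiv e⟩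
  | succ d ih =>
    intro M M' _ _ _ _ e h
    obtain ⟨P, _, _, f, h1, h2, h3, h4⟩ := h
    refine ⟨P, _, _, e.toLinearMap.comp f, h1, h2, e.surjective.comp h3, ?_⟩
    have h5 : LinearMap.ker (e.toLinearMap.comp f) = LinearMap.ker f := LinearEquiv.ker_comp _ _
    exact ih _ _ (LinearEquiv.ofEq _ _ h5.symm) h4

/-- The subring is closed under the solution of equations. -/
structure Closed (R : Type) [Ring R] [IsNoetherianRing R] (S : Subring R) : Prop where
  solve : ∀ (p q : ℕ) (M : Matrix (Fin p) (Fin q) S) (v : Fin q → S),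
    (∃ x : Fin p → R, x ᵥ* M.map S.subtype = fun j => (v j : R)) → ∃ x : Fin p → S, x ᵥ* M = v
  kern : ∀ (p q : ℕ) (M : Matrix (Fin p) (Fin q) S) (i : _) (j : _),
    km R p q (M.map S.subtype) i j ∈ S
  split : ∀ (p q : ℕ) (M : Matrix (Fin p) (Fin q) S),
    (∃ Y : Matrix (Fin q) (Fin p) R, M.map S.subtype * Y * M.map S.subtype = M.map S.subtype) →
    ∃ Y : Matrix (Fin q) (Fin p) S, M * Y * M = M

section

variable {R : Type} [Ring R] [IsNoetherianRing R] {S : Subring R}

omit [IsNoetherianRing R] in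
theorem vecMul_map {p q : ℕ} (M : Matrix (Fin p) (Fin q) S) (x : Fin p → S) :
    (fun i => (x i : R)) ᵥ* M.map S.subtype = fun j => ((x ᵥ* M) j : R) := by
  ext j
  simp [Matrix.vecMul, dotProduct]

theorem finRes_cok (h : Closed R S) : ∀ (d p q : ℕ) (M : Matrix (Fin p) (Fin q) S),
    Ch R d p q (M.map S.subtype) → FinRes S d ((Fin q → S) ⧸ rg M) := by
  intro d
  induction d with
  | zero =>
    intro p q M hM
    obtain ⟨Y, hY⟩ := h.split p q M hM
    refine ⟨inferInstance, ?_⟩
    have h1 : rg M ≤ LinearMap.ker (LinearMap.id - (Y * M).vecMulLinear) := by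
      rintro _ ⟨z, rfl⟩
      rw [LinearMap.mem_ker, LinearMap.sub_apply, LinearMap.id_apply, sub_eq_zero,
        Matrix.vecMulLinear_apply, Matrix.vecMulLinear_apply, Matrix.vecMul_vecMul,
        ← Matrix.mul_assoc, hY]
    refine Module.Projective.of_split ((rg M).liftQ _ h1) (rg M).mkQ ?_
    apply Submodule.linearMap_qext
    apply LinearMap.ext
    intro x
    change (rg M).mkQ (x - (Y * M).vecMulLinear x) = (rg M).mkQ x
    rw [map_sub, sub_eq_self, Submodule.mkQ_apply, Submodule.Quotient.mk_eq_zero]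
    refine ⟨x ᵥ* Y, ?_⟩
    rw [Matrix.vecMulLinear_apply, Matrix.vecMulLinear_apply, Matrix.vecMul_vecMul]
  | succ d ih =>
    intro p q M hM
    let N : Matrix (Fin (kn R p q (M.map S.subtype))) (Fin p) S :=
      Matrix.of fun i j => ⟨km R p q (M.map S.subtype) i j, h.kern p q M i j⟩
    have hN : N.map S.subtype = km R p q (M.map S.subtype) := rfl
    have h1 : FinRes S d ((Fin p → S) ⧸ rg N) := ih _ _ N hM
    have h2 : rg N = kr M := by
      apply le_antisymm
      · rintro _ ⟨z, rfl⟩
        rw [LinearMap.mem_ker, Matrix.vecMulLinear_apply, Matrix.vecMulLinear_apply]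
        have h3 : (fun i => (z i : R)) ᵥ* N.map S.subtype ∈ kr (M.map S.subtype) := by
          rw [← rg_km, hN]
          exact ⟨_, rfl⟩
        rw [vecMul_map, LinearMap.mem_ker, Matrix.vecMulLinear_apply, vecMul_map] at h3
        ext j
        exact congrFun h3 j
      · intro x hx
        rw [LinearMap.mem_ker, Matrix.vecMulLinear_apply] at hx
        have h3 : (fun i => (x i : R)) ∈ kr (M.map S.subtype) := by
          rw [LinearMap.mem_ker, Matrix.vecMulLinear_apply, vecMul_map, hx]
          rfl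
        rw [← rg_km] at h3
        obtain ⟨y, hy⟩ := h3
        obtain ⟨z, hz⟩ := h.solve _ _ N x ⟨y, hy⟩
        exact ⟨z, hz⟩
    refine ⟨Fin q → S, inferInstance, inferInstance, (rg M).mkQ, inferInstance, inferInstance,
      Submodule.mkQ_surjective _, ?_⟩
    have h4 : LinearMap.ker (rg M).mkQ = rg M := Submodule.ker_mkQ _
    refine finRes_equiv S d _ _ ?_ h1
    exact ((Submodule.quotEquivOfEq _ _ h2).trans M.vecMulLinear.quotKerEquivRange).trans
      (LinearEquiv.ofEq _ _ h4.symm)

theorem noeth_sub (h : Closed R S) : IsNoetherianRing S := by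
  rw [isNoetherianRing_iff_ideal_fg]
  intro I
  have h1 : (Submodule.span R (S.subtype '' (I : Set S))).FG := IsNoetherian.noetherian _
  rw [Submodule.fg_span_iff_fg_span_finset_subset] at h1
  obtain ⟨s, hs, hs2⟩ := h1
  classical
  obtain ⟨t, ht, rfl⟩ := Finset.subset_set_image_iff.1 hs
  refine ⟨t, ?_⟩
  apply le_antisymm
  · rw [Submodule.span_le]
    exact ht
  · intro b hb
    have h2 : (b : R) ∈ Submodule.span R (S.subtype '' (I : Set S)) :=
      Submodule.subset_span ⟨b, hb, rfl⟩
    rw [hs2] at h2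
    obtain ⟨n, a, ha⟩ : ∃ (n : ℕ) (a : Fin n → S), Set.range a = (t : Set S) := by
      refine ⟨t.card, fun i => (t.equivFin.symm i : S), ?_⟩
      ext x
      constructor
      · rintro ⟨i, rfl⟩
        exact (t.equivFin.symm i).2
      · intro hx
        exact ⟨t.equivFin ⟨x, hx⟩, by simp⟩
    have h3 : ((t.image S.subtype : Finset R) : Set R) = Set.range fun i => (a i : R) := by
      rw [Finset.coe_image, ← ha, ← Set.range_comp]
      rfl
    rw [h3, Submodule.mem_span_range_iff_exists_fun] at h2
    obtain ⟨c, hc⟩ := h2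
    obtain ⟨x, hx⟩ := h.solve n 1 (Matrix.of fun i _ => a i) (fun _ => b) ⟨c, by
      ext j
      simpa [Matrix.vecMul, dotProduct] using hc⟩
    rw [← ha, Submodule.mem_span_range_iff_exists_fun]
    refine ⟨x, ?_⟩
    have := congrFun hx 0
    simpa [Matrix.vecMul, dotProduct] using this

/-- A closed subring of a regular ring is regular. -/
theorem regular_sub (hR : Regular R) (h : Closed R S) : Regular S := by
  have h0 := noeth_sub h
  refine ⟨h0, ?_⟩
  intro M _ _ hM
  obtain ⟨n, f, hf⟩ := Module.Finite.exists_fin' S M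
  obtain ⟨r, N, hN⟩ := exists_rg (LinearMap.ker f) (IsNoetherian.noetherian _)
  obtain ⟨d, hd⟩ := exists_ch R hR r n (N.map S.subtype)
  refine ⟨d, finRes_equiv S d _ _ ?_ (finRes_cok h d r n N hd)⟩
  exact (Submodule.quotEquivOfEq _ _ hN).trans (f.quotKerEquivOfSurjective hf)

end

end Pool.Agent.H4.Reg
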